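import Pool.Agent.Helper43K9.LS.Defs

set_option autoImplicit false
set_option linter.unusedSectionVars false
set_option linter.unusedVariables false

namespace Pool.Agent.Helper43K9.LS

open Pool.Agent.H436R3.Fol Pool.Agent.H436R3.KT Pool.Agent.W497.Mld MvPolynomial
open Pool.Agent.TH165.ACC (pr ex Prim Cn Hs lead part pr_add pr_zero pr_neg pr_sub pr_smul
  pr_smul_right ex_add ex_inj mvI mem_mvI exists_prim)
open Pool.Agent.Helper43K9.NH

variable {n d : ℕ} {L : Type} [Field L] [Algebra ℂ L]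

/-- [HMIN] -/
theorem hmin {g : HypGerm d L} (hk : KltType g) (b : Bd g) {B : EffDiv g.X} {e : LocEq B g.P}
    (hr : IsRestr b e) {m : ℝ} (hm0 : 0 ≤ m)
    (hm : ∀ v, IsOverGerm g.P v → ∀ a, IsLogDisc e v a → m ≤ a) :
    ∀ w, Inn g.E w → m ≤ aa b.ψ (expo g.F) w := by
  have hS := expo_nonempty g.Fne
  -- divisors with tropical weights
  have htrop : ∀ w, Inn g.E w → Trop (expo g.F) w → m ≤ aa b.ψ (expo g.F) w := by
    intro w hi ht
    obtain ⟨k, w', hk0, hw', rfl⟩ := exists_prim hi.ne_zero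
    obtain ⟨v, hv, hwt, hc⟩ := exists_over (hi.of_smul hk0) hw' (trop_smul hS hk0 ht)
    have h1 : m ≤ aa b.ψ (expo g.F) w' := by
      apply hm v hv
      refine ⟨_, hc, ?_⟩
      rw [hr, hwt, aa]
      push_cast
      ring
    rw [aa_smul _ hS hk0.le]
    have h2 : (1 : ℝ) ≤ k := by exact_mod_cast hk0
    nlinarith
  intro w hi
  obtain ⟨b', ε, Q, hε, hQ, hlow⟩ := hk
  have htrop' : ∀ w, Inn g.E w → Trop (expo g.F) w →
      ε * (pr Q w : ℝ) ≤ aa b'.ψ (expo g.F) w := by
    intro w hi ht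
    obtain ⟨k, w', hk0, hw', rfl⟩ := exists_prim hi.ne_zero
    obtain ⟨v, hv, hwt, hc⟩ := exists_over (hi.of_smul hk0) hw' (trop_smul hS hk0 ht)
    have h1 := hlow v hv _ hc
    rw [hwt] at h1
    have h2 : ε * (pr Q w' : ℝ) ≤ aa b'.ψ (expo g.F) w' := by
      rw [aa]
      push_cast at h1
      linarith
    rw [aa_smul _ hS hk0.le, pr_smul_right]
    have h3 : (0 : ℝ) ≤ k := by exact_mod_cast hk0.le
    push_cast
    nlinarith [mul_le_mul_of_nonneg_left h2 h3]
  by_contra hlt
  push Not at hlt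
  set a0 := aa b.ψ (expo g.F) w with ha0
  set a1 := aa b'.ψ (expo g.F) w with ha1
  obtain ⟨t, ht0, ht1, ht2⟩ : ∃ t : ℝ, 0 < t ∧ t < 1 ∧ t * (|a1| + |a0| + 1 + m) < m - a0 := by
    have h0 : 0 < |a1| + |a0| + 1 + m := by positivity
    refine ⟨min (1 / 2) ((m - a0) / (2 * (|a1| + |a0| + 1 + m))), ?_, ?_, ?_⟩
    · exact lt_min (by norm_num) (div_pos (by linarith) (by positivity))
    · exact (min_le_left _ _).trans_lt (by norm_num)
    · calc min (1 / 2) ((m - a0) / (2 * (|a1| + |a0| + 1 + m))) * (|a1| + |a0| + 1 + m)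
          ≤ (m - a0) / (2 * (|a1| + |a0| + 1 + m)) * (|a1| + |a0| + 1 + m) :=
            mul_le_mul_of_nonneg_right (min_le_right _ _) h0.le
        _ = (m - a0) / 2 := by field_simp
        _ < m - a0 := by linarith
  obtain ⟨w', hi', hT', hle⟩ := step (E := g.E) (S := expo g.F) hS
    (ψ := fun j => (1 - t) * b.ψ j + t * b'.ψ j) (not_all_min g) (by
      intro i
      have h1 : dot (fun j => (1 - t) * b.ψ j + t * b'.ψ j) (g.E i) =
          (1 - t) * dot b.ψ (g.E i) + t * dot b'.ψ (g.E i) := by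
        simp only [dot]
        rw [Finset.mul_sum, Finset.mul_sum, ← Finset.sum_add_distrib]
        exact Finset.sum_congr rfl fun i _ => by ring
      rw [h1, b.eq, b'.eq]
      have h2 := b.nonneg i
      have h3 := b'.nonneg i
      nlinarith) hQ (mul_pos ht0 hε) (by
      intro w hi ht
      rw [aa_conv]
      have h1 := htrop w hi ht
      have h2 := htrop' w hi ht
      nlinarith) w hi
  rw [aa_conv, aa_conv, ← ha0, ← ha1] at hle
  have h1 := htrop w' hi' hT'
  have h2 := htrop' w' hi' hT'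
  have h3 : (0 : ℝ) ≤ ε * (pr Q w' : ℝ) := by
    refine mul_nonneg hε.le ?_
    have h4 : 0 < pr Q w' := by
      refine hi' Q (fun j => (hQ j).le) ?_
      rintro rfl
      have h5 : ∀ j : Fin g.N, False := fun j => by
        have := hQ j
        rw [pr_zero] at this
        exact lt_irrefl _ this
      have h6 := g.full (Pi.single 0 1) fun j => (h5 j).elim
      have h7 := congrFun h6 0
      simp at h7
    exact_mod_cast h4.le
  have h4 := le_abs_self a1
  have h5 := neg_abs_le a0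
  nlinarith [mul_nonneg ht0.le (sub_nonneg.2 h1), mul_nonneg ht0.le h3]

end Pool.Agent.Helper43K9.LS
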