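import Pool.Agent.Helper43K9.LS.Defs

/-!
# Lower semicontinuity of minimal log discrepancies: minimal sets of rays
-/

set_option autoImplicit false
set_option linter.unusedVariables false

namespace Pool.Agent.Helper43K9.LS

open Pool.Agent.H436R3.Fol Pool.Agent.H436R3.KT Pool.Agent.W497.Mld MvPolynomial
open Pool.Agent.TH165.ACC (pr ex Prim Cn Hs lead part pr_add pr_zero pr_neg pr_sub pr_smul
  pr_smul_right ex_add ex_inj mvI mem_mvI)
open Pool.Agent.Helper43K9.NH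

variable {n d : ℕ} {L : Type} [Field L] [Algebra ℂ L]

lemma prJ_add (m u v : Fin n → ℤ) : pr m (u + v) = pr m u + pr m v := by
  simp only [pr, Pi.add_apply, mul_add, Finset.sum_add_distrib]

lemma prJ_sum {ι : Type*} (J : Finset ι) (m : Fin n → ℤ) (u : ι → Fin n → ℤ) :
    pr m (∑ j ∈ J, u j) = ∑ j ∈ J, pr m (u j) := by
  classical
  simp only [pr, Finset.sum_apply, Finset.mul_sum]
  rw [Finset.sum_comm]

lemma prJ_sub (m u v : Fin n → ℤ) : pr m (u - v) = pr m u - pr m v := by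
  simp only [pr, Pi.sub_apply, mul_sub, Finset.sum_sub_distrib]

lemma prJ_smul_left (k : ℤ) (m u : Fin n → ℤ) : pr (k • m) u = k * pr m u := by
  simp only [pr, Pi.smul_apply, smul_eq_mul, mul_assoc, Finset.mul_sum]

lemma prJ_sum_left {ι : Type*} (J : Finset ι) (m : ι → Fin n → ℤ) (u : Fin n → ℤ) :
    pr (∑ j ∈ J, m j) u = ∑ j ∈ J, pr (m j) u := by
  classical
  simp only [pr, Finset.sum_apply, Finset.sum_mul]
  rw [Finset.sum_comm]

/-- [COMBJ] -/
theorem exists_J {N : ℕ} {E : Fin N → Fin n → ℤ}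
    (hfull : ∀ m : Fin n → ℤ, (∀ i, pr m (E i) = 0) → m = 0) {w : Fin n → ℤ}
    (hw : ∀ m ∈ Cn E, 0 ≤ pr m w) :
    ∃ J : Finset (Fin N), Inn E (w + ∑ j ∈ J, E j) ∧
      ∀ j ∈ J, ∃ m ∈ Cn E, pr m w = 0 ∧ 0 < pr m (E j) ∧ ∀ i ∈ J, i ≠ j → pr m (E i) = 0 := by
  classical
  have huniv : Inn E (w + ∑ j ∈ Finset.univ, E j) := by
    intro m hm hm0
    rw [prJ_add, prJ_sum]
    have h1 : 0 ≤ pr m w := hw m hm
    have h2 : 0 < ∑ j, pr m (E j) := by
      obtain ⟨i, hi⟩ : ∃ i, pr m (E i) ≠ 0 := by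
        by_contra h
        push Not at h
        exact hm0 (hfull m h)
      exact Finset.sum_pos' (fun j _ => hm j) ⟨i, Finset.mem_univ i, lt_of_le_of_ne (hm i) hi.symm⟩
    omega
  obtain ⟨J, hJ, hmin⟩ : ∃ J : Finset (Fin N), Inn E (w + ∑ j ∈ J, E j) ∧
      ∀ J' : Finset (Fin N), J' ⊂ J → ¬ Inn E (w + ∑ j ∈ J', E j) := by
    obtain ⟨J, hJ⟩ := (Set.toFinite {J : Finset (Fin N) | Inn E (w + ∑ j ∈ J, E j)}).exists_minimal
      ⟨Finset.univ, huniv⟩
    exact ⟨J, hJ.1, fun J' h1 h2 => h1.2 (hJ.2 h2 h1.1)⟩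
  refine ⟨J, hJ, fun j hj => ?_⟩
  have h1 := hmin (J.erase j) (Finset.erase_ssubset hj)
  unfold Inn at h1
  push Not at h1
  obtain ⟨m, hm, hm0, hm1⟩ := h1
  rw [prJ_add, prJ_sum] at hm1
  have h2 : 0 ≤ pr m w := hw m hm
  have h3 : 0 ≤ ∑ i ∈ J.erase j, pr m (E i) := Finset.sum_nonneg fun i _ => hm i
  have h4 : pr m w = 0 := by omega
  have h5 : ∑ i ∈ J.erase j, pr m (E i) = 0 := by omega
  have h6 : ∀ i ∈ J, i ≠ j → pr m (E i) = 0 := fun i hi hij =>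
    (Finset.sum_eq_zero_iff_of_nonneg (fun i _ => hm i)).1 h5 i (Finset.mem_erase.2 ⟨hij, hi⟩)
  refine ⟨m, hm, h4, ?_, h6⟩
  have h7 := hJ m hm hm0
  rw [prJ_add, prJ_sum, h4, ← Finset.add_sum_erase J _ hj, h5] at h7
  omega

/-- [NU] -/
theorem mem_Cn_of_nu {N : ℕ} {E : Fin N → Fin n → ℤ} {J : Finset (Fin N)}
    {m : Fin N → Fin n → ℤ} (hC : ∀ j ∈ J, m j ∈ Cn E) (hm : ∀ j ∈ J, 0 < pr (m j) (E j))
    (hm' : ∀ j ∈ J, ∀ i ∈ J, i ≠ j → pr (m j) (E i) = 0) {δ : Fin n → ℤ}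
    (h0 : ∀ j ∈ J, 0 ≤ pr δ (E j)) (h : ∀ ν, (∀ j ∈ J, pr (m j) ν = 0) → pr δ ν = 0) :
    δ ∈ Cn E := by
  classical
  set D : ℤ := ∏ j ∈ J, pr (m j) (E j) with hD
  have hDpos : 0 < D := Finset.prod_pos hm
  set P : Fin N → ℤ := fun j => ∏ i ∈ J.erase j, pr (m i) (E i) with hP
  have hPD : ∀ j ∈ J, P j * pr (m j) (E j) = D := fun j hj => by
    rw [hP, hD]
    exact Finset.prod_erase_mul J _ hj
  have hPpos : ∀ j ∈ J, 0 ≤ P j := fun j hj =>
    Finset.prod_nonneg fun i hi => (hm i (Finset.mem_of_mem_erase hi)).le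
  have key : D • δ = ∑ j ∈ J, (P j * pr δ (E j)) • m j := by
    funext l
    set ν : Fin n → ℤ := D • Pi.single l 1 - ∑ j ∈ J, (P j * m j l) • E j with hν
    have hs : ∀ u : Fin n → ℤ, pr u (Pi.single l 1) = u l := by
      intro u
      simp [pr, Pi.single_apply]
    have h1 : ∀ u : Fin n → ℤ, pr u ν = D * u l - ∑ j ∈ J, (P j * m j l) * pr u (E j) := by
      intro u
      rw [hν, prJ_sub, pr_smul_right, hs, prJ_sum]
      simp only [pr_smul_right]
    have h2 : ∀ i ∈ J, pr (m i) ν = 0 := by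
      intro i hi
      rw [h1, Finset.sum_eq_single_of_mem i hi]
      · have := hPD i hi
        linear_combination (- m i l) * this
      · intro j hj hji
        rw [hm' i hi j hj hji, mul_zero]
    have h3 := h ν h2
    rw [h1] at h3
    simp only [Finset.sum_apply, Pi.smul_apply, smul_eq_mul]
    have h4 : ∑ j ∈ J, P j * pr δ (E j) * m j l = ∑ j ∈ J, P j * m j l * pr δ (E j) :=
      Finset.sum_congr rfl fun j _ => by ring
    rw [h4]
    linarith
  intro i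
  have h5 : D * pr δ (E i) = ∑ j ∈ J, (P j * pr δ (E j)) * pr (m j) (E i) := by
    rw [← prJ_smul_left, key, prJ_sum_left]
    simp only [prJ_smul_left]
  have h6 : 0 ≤ D * pr δ (E i) := by
    rw [h5]
    exact Finset.sum_nonneg fun j hj => mul_nonneg (mul_nonneg (hPpos j hj) (h0 j hj)) (hC j hj i)
  exact nonneg_of_mul_nonneg_right h6 hDpos

end Pool.Agent.Helper43K9.LS
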