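import Pool.Agent.Helper43K9.LS.Low
import Pool.Agent.Helper43K9.LS.Hmin
import Pool.Agent.Helper43K9.LS.Hex
import Pool.Agent.Helper43K9.LS.Fun
import Pool.Agent.Helper43K9.LS.J

set_option autoImplicit false
set_option linter.unusedSectionVars false
set_option linter.unusedVariables false

namespace Pool.Agent.Helper43K9.LS

open Pool.Agent.H436R3.Fol Pool.Agent.H436R3.KT Pool.Agent.W497.Mld MvPolynomial
open Pool.Agent.TH165.ACC (pr ex Prim Cn Hs lead part pr_add pr_zero pr_neg pr_sub pr_smul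
  pr_smul_right ex_add ex_inj mvI mem_mvI ord_eq_zero_of_notMem lead_eq euler_part support_euler)
open Pool.Agent.Helper43K9.NH

variable {n d : ℕ} {L : Type} [Field L] [Algebra ℂ L]


/-- the logarithmic derivative of least order, for weights in the cone -/
theorem exists_index' {g : HypGerm d L} {v : DVal L}
    (hnd : ∀ ξ : Fin (d + 1) → ℂ, (∀ i, ξ i ≠ 0) → eval ξ (lead (wt g.y v) g.F) = 0 →
      ∃ i, eval ξ (pderiv i (lead (wt g.y v) g.F)) ≠ 0) :
    ∃ k : Fin (d + 1), aeval g.y (X k * pderiv k g.F) ≠ 0 ∧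
      v.ord (aeval g.y (X k * pderiv k g.F)) = phi (expo g.F) (wt g.y v) := by
  classical
  set u := wt g.y v with hu
  set m : ℤ := phi (expo g.F) u with hm
  obtain ⟨hm1, hm2⟩ := phi_expo g.Fne u
  rw [← hm] at hm1 hm2
  obtain ⟨π, hπ, h1⟩ := v.surj
  have hy := g.yne
  let 𝔭 : Ideal (MvPolynomial (Fin (d + 1)) ℂ) := (mvI v).comap (Phi' hy hπ h1)
  have hlead : lead u g.F = part u m g.F := lead_eq hm1 hm2
  have hF0 : aeval g.y g.F = 0 := (g.ker _).2 dvd_rfl
  have hJ : lead u g.F ∈ 𝔭 := by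
    rw [hlead]
    change v.Pos _
    obtain ⟨h2, h3⟩ := reg_mul_zpow' hy hπ h1 hm2
    rw [hF0, zero_mul] at h3
    have h5 : (Phi' hy hπ h1 (part u m g.F) : L) =
        (-1) * (0 - (Phi' hy hπ h1 (part u m g.F) : L)) := by ring
    rw [h5]
    refine v.pos_mul_left ?_ h3
    exact v.reg_neg v.reg_one
  have h𝔭 : 𝔭.IsPrime := Ideal.IsPrime.comap _
  have hX : ∀ i, (X i : MvPolynomial (Fin (d + 1)) ℂ) ∉ 𝔭 := by
    intro i hi
    have h2 : (Phi' hy hπ h1 (X i) : L) = g.y i * π ^ (-v.ord (g.y i)) := by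
      rw [Phi', coe_eval₂Hom, eval₂_X]
    have h3 : v.Pos (g.y i * π ^ (-v.ord (g.y i))) := by
      rw [← h2]
      exact hi
    rcases h3 with h3 | h3
    · exact mul_ne_zero (hy i) (zpow_ne_zero _ hπ) h3
    · rw [v.map_mul _ _ (hy i) (zpow_ne_zero _ hπ), v.ord_zpow hπ, h1] at h3
      omega
  obtain ⟨ξ, hξ𝔭, hξ⟩ : ∃ ξ ∈ zeroLocus ℂ 𝔭, ∀ i, ξ i ≠ 0 := by
    by_contra h2
    push Not at h2
    have h3 : (∏ i, (X i : MvPolynomial (Fin (d + 1)) ℂ)) ∈ vanishingIdeal ℂ (zeroLocus ℂ 𝔭) := by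
      rw [mem_vanishingIdeal_iff]
      intro ξ hξ
      obtain ⟨i, hi⟩ := h2 ξ hξ
      rw [map_prod]
      exact Finset.prod_eq_zero (Finset.mem_univ i) (by rw [aeval_X, hi])
    rw [vanishingIdeal_zeroLocus_eq_radical, h𝔭.radical, h𝔭.prod_mem_iff] at h3
    obtain ⟨i, -, hi⟩ := h3
    exact hX i hi
  have hev : ∀ q ∈ 𝔭, eval ξ q = 0 := by
    intro q hq
    have := mem_zeroLocus_iff.1 hξ𝔭 q hq
    rwa [← coe_aeval_eq_eval]
  obtain ⟨i, hi⟩ := hnd ξ hξ (hev _ hJ)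
  have hM : X i * pderiv i (lead u g.F) ∉ 𝔭 := by
    intro h2
    have h3 := hev _ h2
    rw [map_mul, eval_X] at h3
    exact mul_ne_zero (hξ i) hi h3
  have hsup : ∀ t ∈ (X i * pderiv i g.F).support, m ≤ pr (ex t) u := fun t ht =>
    hm2 t (support_euler _ _ ht)
  obtain ⟨h4, h5⟩ := reg_mul_zpow' hy hπ h1 hsup
  rw [← hu, ← euler_part, ← hlead] at h5
  have h6 : (⟨_, h4⟩ : v.O) ∉ mvI v := by
    intro h7
    apply hM
    change v.Pos (Phi' hy hπ h1 (X i * pderiv i (lead u g.F)) : L)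
    have h8 : (Phi' hy hπ h1 (X i * pderiv i (lead u g.F)) : L) =
        aeval g.y (X i * pderiv i g.F) * π ^ (-m) + (-1) *
          (aeval g.y (X i * pderiv i g.F) * π ^ (-m) -
            (Phi' hy hπ h1 (X i * pderiv i (lead u g.F)) : L)) := by ring
    rw [h8]
    exact v.pos_add h7 (v.pos_mul_left (v.reg_neg v.reg_one) h5)
  obtain ⟨h7, h8⟩ := ord_eq_zero_of_notMem h6
  have h9 : aeval g.y (X i * pderiv i g.F) ≠ 0 := left_ne_zero_of_mul h7
  refine ⟨i, h9, ?_⟩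
  change v.ord (aeval g.y (X i * pderiv i g.F) * π ^ (-m)) = 0 at h8
  rw [v.map_mul _ _ h9 (zpow_ne_zero _ hπ), v.ord_zpow hπ, h1] at h8
  omega

theorem intCast_ne {v : DVal L} {k : ℤ} (hk : k ≠ 0) : (k : Kp v) ≠ 0 := by
  intro h
  have h1 : red v (k : v.O) = 0 := by rw [map_intCast, h]
  rw [red_eq_zero] at h1
  have h2 : ((k : v.O) : L) = algebraMap ℂ L (k : ℂ) := by
    rw [map_intCast]
    exact Subring.coe_intCast _ _
  have h3 : (k : ℂ) ≠ 0 := by exact_mod_cast hk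
  rw [h2] at h1
  rcases h1 with h1 | h1
  · exact h3 ((map_eq_zero_iff _ (algebraMap ℂ L).injective).1 h1)
  · rw [v.const _ h3] at h1
    exact lt_irrefl _ h1

/-- pairing over the residue field with an integral vector -/
noncomputable def pK {v : DVal L} (ν : Fin n → ℤ) : (Fin n → Kp v) →ₗ[Kp v] Kp v where
  toFun u := ∑ l, u l * (ν l : Kp v)
  map_add' a b := by simp only [Pi.add_apply, add_mul, Finset.sum_add_distrib]
  map_smul' c a := by
    simp only [Pi.smul_apply, smul_eq_mul, RingHom.id_apply, Finset.mul_sum, mul_assoc]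

/-- integral vectors over the residue field -/
def cK (v : DVal L) (m : Fin n → ℤ) : Fin n → Kp v := fun l => (m l : Kp v)

theorem pK_cK {v : DVal L} (m ν : Fin n → ℤ) : pK ν (cK v m) = ((pr m ν : ℤ) : Kp v) := by
  change ∑ l, (m l : Kp v) * (ν l : Kp v) = _
  rw [pr]
  push_cast
  rfl

/-- vectors with a diagonal pairing are independent -/
theorem indep_diag {v : DVal L} {N : ℕ} {E : Fin N → Fin n → ℤ} {J : Finset (Fin N)}
    {m : Fin N → Fin n → ℤ} (hm : ∀ j ∈ J, 0 < pr (m j) (E j))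
    (hm' : ∀ j ∈ J, ∀ i ∈ J, i ≠ j → pr (m j) (E i) = 0) :
    LinearIndepOn (Kp v) (fun j => cK v (m j)) (J : Set (Fin N)) ∧
      Set.InjOn (fun j => cK v (m j)) (J : Set (Fin N)) := by
  constructor
  · rw [linearIndepOn_finset_iff]
    intro f hf i hi
    have h1 := congrArg (pK (v := v) (E i)) hf
    rw [map_sum, map_zero, Finset.sum_eq_single i] at h1
    · rw [map_smul, pK_cK, smul_eq_mul] at h1
      exact (mul_eq_zero.1 h1).resolve_right (intCast_ne (hm i hi).ne')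
    · intro j hj hji
      rw [map_smul, pK_cK, hm' j hj i hi hji.symm, Int.cast_zero, smul_zero]
    · intro h; exact absurd hi h
  · intro i hi j hj hij
    by_contra hne
    have h1 := congrArg (pK (v := v) (E i)) hij
    simp only at h1
    rw [pK_cK, pK_cK, hm' j hj i hi hne, Int.cast_zero] at h1
    exact intCast_ne (hm i hi).ne' h1

/-- the reduction of a monomial unit -/
theorem good_mon {g : HypGerm d L} {x : Pt g.X} {v : DVal L} (hv : IsOverGerm x v)
    {m : Fin (d + 1) → ℤ} (hm : m ∈ Cn g.E) (h0 : pr m (wt g.y v) = 0) :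
    Good g.y v (cK v m) := by
  have hmem : ch g.y m ∈ g.X.R := by
    rw [g.hR]
    exact ch_mem_AA hm
  refine ⟨ch g.y m - algebraMap ℂ L (x ⟨_, hmem⟩), ch g.y m, fun l => (m l : L), ch_ne g.yne m,
    ?_, ?_, ⟨fun l => v.reg_intCast _, fun l => ?_⟩⟩
  · have h1 : x (⟨_, hmem⟩ - algebraMap ℂ g.X.R (x ⟨_, hmem⟩)) = 0 := by
      rw [map_sub, AlgHom.commutes]
      exact sub_self _
    have h2 := (hv.2 _).2 h1
    rw [ord_ch g.yne, h0]
    rcases h2 with h2 | h2
    · exact Or.inl h2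
    · right
      have h3 : (0 : ℤ) < v.ord (ch g.y m - algebraMap ℂ L (x ⟨_, hmem⟩)) := h2
      omega
  · intro D
    rw [map_sub, Derivation.map_algebraMap, sub_zero, der_ch g.yne]
  · change red v (⟨(m l : L), v.reg_intCast _⟩ : v.O) = (m l : Kp v)
    rw [← map_intCast (red v)]
    congr 1

/-- the reduction of the logarithmic derivatives of a function of large order -/
theorem good_der {g : HypGerm d L} {v : DVal L} {k0 : Fin (d + 1)}
    (hk : aeval g.y (X k0 * pderiv k0 g.F) ≠ 0)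
    (hk' : v.ord (aeval g.y (X k0 * pderiv k0 g.F)) = phi (expo g.F) (wt g.y v))
    {H : MvPolynomial (Fin (d + 1)) ℂ}
    (hH0 : aeval g.y H = 0 ∨ phi (expo g.F) (wt g.y v) + 1 ≤ v.ord (aeval g.y H))
    (h : ∀ l, v.Reg (aeval g.y (X l * pderiv l H) / aeval g.y (X k0 * pderiv k0 g.F))) :
    Good g.y v (fun l => red v ⟨_, h l⟩) := by
  refine ⟨aeval g.y H, aeval g.y (X k0 * pderiv k0 g.F), fun l =>
    aeval g.y (X l * pderiv l H) / aeval g.y (X k0 * pderiv k0 g.F), hk, ?_, ?_, ⟨h, fun l => rfl⟩⟩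
  · rw [hk']
    exact hH0
  · intro D
    rw [der_aeval g.yne, Finset.mul_sum]
    refine Finset.sum_congr rfl fun l _ => ?_
    rw [← mul_assoc, mul_div_cancel₀ _ hk]

theorem reg_euler {g : HypGerm d L} {v : DVal L} {k0 : Fin (d + 1)}
    (hk : aeval g.y (X k0 * pderiv k0 g.F) ≠ 0)
    (hk' : v.ord (aeval g.y (X k0 * pderiv k0 g.F)) = phi (expo g.F) (wt g.y v))
    {H : MvPolynomial (Fin (d + 1)) ℂ} (hH : H.support ⊆ g.F.support) (l : Fin (d + 1)) :
    v.Reg (aeval g.y (X l * pderiv l H) / aeval g.y (X k0 * pderiv k0 g.F)) :=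
  reg_div_of (ge_of_weights g.yne fun s hs =>
    (phi_expo g.Fne (wt g.y v)).2 s (hH (support_euler _ _ hs))) hk hk'.le

theorem phi_sum {N : ℕ} {E : Fin N → Fin n → ℤ} {S : Finset (Fin n → ℤ)} (hS : S.Nonempty)
    (J : Finset (Fin N)) (w : Fin n → ℤ) :
    phi S w + ∑ j ∈ J, phi S (E j) ≤ phi S (w + ∑ j ∈ J, E j) := by
  obtain ⟨⟨m, hm, h1⟩, -⟩ := phi_spec hS (w + ∑ j ∈ J, E j)
  rw [← h1, pr_add_right]
  have h2 : ∀ K : Finset (Fin N), pr m (∑ j ∈ K, E j) = ∑ j ∈ K, pr m (E j) := by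
    classical
    intro K
    induction K using Finset.induction_on with
    | empty => simp [pr]
    | insert a K ha ih => rw [Finset.sum_insert ha, Finset.sum_insert ha, pr_add_right, ih]
  rw [h2]
  exact add_le_add ((phi_spec hS w).2 m hm)
    (Finset.sum_le_sum fun j _ => (phi_spec hS (E j)).2 m hm)

theorem pr_sum_right {N : ℕ} {E : Fin N → Fin n → ℤ} (m : Fin n → ℤ) (K : Finset (Fin N)) :
    pr m (∑ j ∈ K, E j) = ∑ j ∈ K, pr m (E j) := by
  classical
  induction K using Finset.induction_on with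
  | empty => simp [pr]
  | insert a K ha ih => rw [Finset.sum_insert ha, Finset.sum_insert ha, pr_add_right, ih]

theorem dot_sum {N : ℕ} {E : Fin N → Fin n → ℤ} (ψ : Fin n → ℝ) (K : Finset (Fin N)) :
    dot ψ (∑ j ∈ K, E j) = ∑ j ∈ K, dot ψ (E j) := by
  classical
  induction K using Finset.induction_on with
  | empty => simp [dot]
  | insert a K ha ih => rw [Finset.sum_insert ha, Finset.sum_insert ha, dot_add, ih]

/-- the toric log discrepancy at `w + ∑ E_j` -/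
theorem aa_le {g : HypGerm d L} (b : Bd g) (J : Finset (Fin g.N)) (w : Fin (d + 1) → ℤ) {k : ℤ}
    (hk : phi (expo g.F) w + ∑ j ∈ J, phi (expo g.F) (g.E j) + k ≤
      phi (expo g.F) (w + ∑ j ∈ J, g.E j)) :
    aa b.ψ (expo g.F) (w + ∑ j ∈ J, g.E j) ≤ aa b.ψ (expo g.F) w + J.card - k := by
  have h1 : ∑ j ∈ J, dot b.ψ (g.E j) ≤ ∑ j ∈ J, (1 + (phi (expo g.F) (g.E j) : ℝ)) := by
    refine Finset.sum_le_sum fun j _ => ?_
    rw [b.eq]
    have := b.nonneg j
    linarith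
  rw [Finset.sum_add_distrib, Finset.sum_const, nsmul_eq_mul, mul_one] at h1
  have h2 : (phi (expo g.F) w : ℝ) + ∑ j ∈ J, (phi (expo g.F) (g.E j) : ℝ) + k ≤
      (phi (expo g.F) (w + ∑ j ∈ J, g.E j) : ℝ) := by exact_mod_cast hk
  rw [aa, aa, dot_add, dot_sum]
  linarith

theorem core (g : HypGerm d L) (hnd : Nondeg g) : ∃ f : g.X.R, g.P f ≠ 0 ∧
    ∀ x : Pt g.X, x f ≠ 0 → ∀ v, IsOverGerm x v → ∀ c, IsCanOrd g.X.T v c → ∀ b : Bd g,
      ∃ w', Inn g.E w' ∧ aa b.ψ (expo g.F) w' ≤ 1 + (c : ℝ) + dot b.ψ (wt g.y v) := by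
  classical
  obtain ⟨f, hf, hfx⟩ := exists_fun g
  refine ⟨f, hf, fun x hx v hv c hc b => ?_⟩
  have hreg : ∀ f : g.X.R, v.Reg (f : L) := by
    obtain ⟨⟨S, -, h1, h2⟩, -⟩ := hv
    exact fun f => h2.1 _ (h1 f.2)
  have hw : ∀ m ∈ Cn g.E, 0 ≤ pr m (wt g.y v) := by
    intro m hm
    have hmem : ch g.y m ∈ g.X.R := by
      rw [g.hR]
      exact ch_mem_AA hm
    rw [← ord_ch g.yne]
    exact v.ord_nonneg (ch_ne g.yne _) (hreg ⟨_, hmem⟩)
  obtain ⟨k0, hk, hk'⟩ := exists_index' (hnd _ hw)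
  obtain ⟨J, hJ, hJm⟩ := exists_J g.full hw
  choose! m hmC hm0 hmp hmz using hJm
  obtain ⟨A, hA0, hA, rfl⟩ := hc.1
  set w := wt g.y v with hwd
  set φ := phi (expo g.F) w with hφ
  have hS := expo_nonempty g.Fne
  -- the vectors
  have hθr := fun l => reg_euler hk hk' (Finset.Subset.refl g.F.support) l
  let θ : Fin (d + 1) → Kp v := fun l => red v ⟨_, hθr l⟩
  have hθ : Red v (fun l => aeval g.y (X l * pderiv l g.F) / aeval g.y (X k0 * pderiv k0 g.F)) θ :=
    ⟨hθr, fun l => rfl⟩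
  obtain ⟨hind, hinj⟩ := indep_diag (v := v) hmp hmz
  let B0 : Finset (Fin (d + 1) → Kp v) := J.image fun j => cK v (m j)
  have hB0c : B0.card = J.card := Finset.card_image_of_injOn hinj
  have hB0i : LinearIndepOn (Kp v) id (B0 : Set (Fin (d + 1) → Kp v)) := by
    rw [Finset.coe_image]
    exact hind.id_image
  have hB0g : ∀ u ∈ B0, Good g.y v u := by
    intro u hu
    obtain ⟨j, hj, rfl⟩ := Finset.mem_image.1 hu
    exact good_mon hv (hmC j hj) (hm0 j hj)
  have hsup := phi_sum hS J (E := g.E) w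
  refine ⟨w + ∑ j ∈ J, g.E j, hJ, ?_⟩
  -- the final estimates
  have hfin : ∀ k : ℤ, φ + ∑ j ∈ J, phi (expo g.F) (g.E j) + k ≤
      phi (expo g.F) (w + ∑ j ∈ J, g.E j) → (J.card : ℤ) - k - 1 - φ ≤ v.ord A.det →
      aa b.ψ (expo g.F) (w + ∑ j ∈ J, g.E j) ≤ 1 + (v.ord A.det : ℝ) + dot b.ψ w := by
    intro k h1 h2
    have h3 := aa_le b J w h1
    have h4 : (J.card : ℝ) - k - 1 - φ ≤ (v.ord A.det : ℝ) := by exact_mod_cast h2
    have h5 : aa b.ψ (expo g.F) w = dot b.ψ w - φ := rfl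
    linarith
  have hins : ∀ u, u ∉ Submodule.span (Kp v) (B0 : Set (Fin (d + 1) → Kp v)) →
      (u = θ ∨ Good g.y v u) → (J.card : ℤ) - 1 - φ ≤ v.ord A.det := by
    intro u hu hg
    refine low_ind hk hk' hθ (B := insert u B0) ?_ ?_ (r := J.card) ?_ A hA0 hA
    · intro u' hu'
      rcases Finset.mem_insert.1 hu' with rfl | h
      · exact hg
      · exact Or.inr (hB0g _ h)
    · rw [Finset.coe_insert]
      exact hB0i.id_insert hu
    · rw [Finset.card_insert_of_notMem fun h => hu (Submodule.subset_span h), hB0c]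
  by_cases hθs : θ ∈ Submodule.span (Kp v) (B0 : Set (Fin (d + 1) → Kp v))
  swap
  · exact hfin 0 (by omega) (by have := hins θ hθs (Or.inl rfl); omega)
  by_cases hex : φ + ∑ j ∈ J, phi (expo g.F) (g.E j) + 1 ≤ phi (expo g.F) (w + ∑ j ∈ J, g.E j)
  · refine hfin 1 hex ?_
    have hpos : 0 < J.card := by
      rw [Finset.card_pos, Finset.nonempty_iff_ne_empty]
      rintro rfl
      have h1 : θ = 0 := by simpa [B0] using hθs
      have h2 := congrFun h1 k0
      obtain ⟨h3, h4⟩ := hθ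
      have h5 := h4 k0
      rw [h2] at h5
      change _ = (0 : Kp v) at h5
      rw [red_eq_zero] at h5
      change v.Pos (aeval g.y (X k0 * pderiv k0 g.F) / aeval g.y (X k0 * pderiv k0 g.F)) at h5
      rw [div_self hk] at h5
      rcases h5 with h5 | h5
      · exact one_ne_zero h5
      · rw [v.ord_one] at h5
        exact lt_irrefl _ h5
    have h1 := low_ind hk hk' hθ (B := B0) (fun u hu => Or.inr (hB0g u hu)) hB0i
      (r := J.card - 1) (by omega) A hA0 hA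
    have h2 : ((J.card - 1 : ℕ) : ℤ) = (J.card : ℤ) - 1 := by omega
    rw [h2] at h1
    omega
  -- the coefficient function
  have hex' : φ + ∑ j ∈ J, phi (expo g.F) (g.E j) = phi (expo g.F) (w + ∑ j ∈ J, g.E j) := by
    omega
  refine hfin 0 (by omega) ?_
  obtain ⟨⟨m0, hm0S, h1⟩, -⟩ := phi_spec hS (w + ∑ j ∈ J, g.E j)
  obtain ⟨s0, hs0, rfl⟩ := mem_expo.1 hm0S
  rw [pr_add_right, pr_sum_right] at h1
  have h2 := (phi_spec hS w).2 _ hm0S
  have h3 : ∀ j ∈ J, phi (expo g.F) (g.E j) ≤ pr (ex s0) (g.E j) := fun j _ =>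
    (phi_spec hS (g.E j)).2 _ hm0S
  have h4 := Finset.sum_le_sum h3
  have hs0w : pr (ex s0) w = φ := by omega
  have hs0E : ∀ j ∈ J, pr (ex s0) (g.E j) = phi (expo g.F) (g.E j) := by
    have h5 : ∑ j ∈ J, phi (expo g.F) (g.E j) = ∑ j ∈ J, pr (ex s0) (g.E j) := by omega
    exact fun j hj => ((Finset.sum_eq_sum_iff_of_le h3).1 h5 j hj).symm
  let Q : (Fin (d + 1) → ℤ) → Prop := fun ν => ∀ j ∈ J, pr (m j) ν = 0
  let S : Finset (Fin (d + 1) →₀ ℕ) := g.F.support.filter fun s =>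
    pr (ex s) w = φ ∧ ∀ ν, Q ν → pr (ex s - ex s0) ν = 0
  have hSF : S ⊆ g.F.support := Finset.filter_subset _ _
  have hs0S : s0 ∈ S := Finset.mem_filter.2 ⟨hs0, hs0w, fun ν _ => by rw [sub_self, pr_zero]⟩
  have hSC : ∀ s ∈ S, ex s - ex s0 ∈ Cn g.E := by
    intro s hs
    obtain ⟨h5, h6, h7⟩ := Finset.mem_filter.1 hs
    refine mem_Cn_of_nu hmC hmp hmz (fun j hj => ?_) h7
    rw [pr_sub, hs0E j hj]
    have := (phi_spec hS (g.E j)).2 _ (mem_expo.2 ⟨s, h5, rfl⟩)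
    omega
  obtain ⟨h, hh, hxh⟩ := hfx x hx S hSF s0 hs0S hSC
  have hhp : ¬ v.Pos (h : L) := fun h5 => hxh ((hv.2 h).1 h5)
  have hh0 : (h : L) ≠ 0 := fun h5 => hhp (Or.inl h5)
  have hho : v.ord (h : L) = 0 := by
    have h5 := v.ord_nonneg hh0 (hreg h)
    by_contra h6
    exact hhp (Or.inr (by omega))
  have hne : aeval g.y (∑ s ∈ S, monomial s (g.F.coeff s)) ≠ 0 := by
    rw [← hh]
    exact mul_ne_zero hh0 (ch_ne g.yne _)
  have hord : v.ord (aeval g.y (∑ s ∈ S, monomial s (g.F.coeff s))) = φ := by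
    rw [← hh, v.map_mul _ _ hh0 (ch_ne g.yne _), hho, ord_ch g.yne, zero_add]
    exact hs0w
  obtain ⟨H, ν, hQ, hHs, hH0, hH1, hH2⟩ := exists_H hSF
    (fun s hs => (Finset.mem_filter.1 hs).2.1) hs0S hne hord Q
    (fun s hs => (Finset.mem_filter.1 hs).2.2) (fun s hs hs' hsS => by
      by_contra h5
      push Not at h5
      exact hsS (Finset.mem_filter.2 ⟨hs, hs', h5⟩))
  have hHr := fun l => reg_euler hk hk' hHs l
  suffices hnot : (fun l => red v ⟨_, hHr l⟩) ∉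
      Submodule.span (Kp v) (B0 : Set (Fin (d + 1) → Kp v)) by
    have := hins _ hnot (Or.inr (good_der hk hk' hH0 hHr))
    omega
  -- not in the span
  intro hsp
  have h5 : Submodule.span (Kp v) (B0 : Set (Fin (d + 1) → Kp v)) ≤ LinearMap.ker (pK ν) := by
    rw [Submodule.span_le]
    intro u hu
    obtain ⟨j, hj, rfl⟩ := Finset.mem_image.1 hu
    change pK ν (cK v (m j)) = 0
    rw [pK_cK, hQ j hj, Int.cast_zero]
  have h6 : pK ν (fun l => red v ⟨_, hHr l⟩) = 0 := h5 hsp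
  let q : Fin (d + 1) → v.O := fun l => ⟨_, hHr l⟩
  have h7 : pK (v := v) ν (fun l => red v ⟨_, hHr l⟩) = red v (∑ l, q l * ((ν l : ℤ) : v.O)) := by
    rw [map_sum]
    change ∑ l, red v (q l) * (ν l : Kp v) = _
    refine Finset.sum_congr rfl fun l _ => ?_
    rw [map_mul, map_intCast]
  rw [h7, red_eq_zero] at h6
  have h8 : ((∑ l, q l * ((ν l : ℤ) : v.O) : v.O) : L) =
      (∑ l, (ν l : L) * aeval g.y (X l * pderiv l H)) / aeval g.y (X k0 * pderiv k0 g.F) := by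
    rw [Finset.sum_div]
    push_cast
    refine Finset.sum_congr rfl fun l _ => ?_
    simp only [q]
    ring
  rw [h8] at h6
  rcases h6 with h6 | h6
  · exact div_ne_zero hH1 hk h6
  · rw [v.ord_div hH1 hk, hH2, hk', sub_self] at h6
    exact lt_irrefl _ h6

end Pool.Agent.Helper43K9.LS
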