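import Pool.Agent.Helper43K9.NH.Asm

/-!
# Lower semicontinuity of minimal log discrepancies: definitions
-/

set_option autoImplicit false

namespace Pool.Agent.Helper43K9.LS

open Pool.Agent.H436R3.Fol Pool.Agent.H436R3.KT Pool.Agent.W497.Mld MvPolynomial
open Pool.Agent.TH165.ACC (pr ex Prim Cn lead part mvI)
open Pool.Agent.Helper43K9.NH

variable {d : ℕ} {L : Type} [Field L] [Algebra ℂ L]

/-- The hypersurface is nondegenerate: for all weights in the cone, also for those on the boundary,
the zero set in the torus of the initial form of `F` is smooth. -/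
def Nondeg (g : HypGerm d L) : Prop :=
  ∀ w, (∀ m ∈ Cn g.E, 0 ≤ pr m w) → ∀ ξ : Fin (d + 1) → ℂ, (∀ i, ξ i ≠ 0) →
    eval ξ (lead w g.F) = 0 → ∃ i, eval ξ (pderiv i (lead w g.F)) ≠ 0

/-- `K_X + B` is the restriction to `X` of `K_Y + X + ∑ β_i D_i`, near the closed point `x`. -/
def IsRestrAt {g : HypGerm d L} (b : Bd g) {B : EffDiv g.X} {x : Pt g.X} (e : LocEq B x) : Prop :=
  ∀ v : DVal L, ∑ k, e.ρ k * (v.ord (e.g k) : ℝ) = -dot b.ψ (wt g.y v)

open Classical in
/-- The minimal log discrepancy `mld_x (X, B)` at the closed point `x`: the infimum of the log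
discrepancies of the prime divisors over `X` with centre `x` if none of them is negative, and `-∞`
otherwise. -/
noncomputable def mld {X : AffVar L} {B : EffDiv X} {x : Pt X} (e : LocEq B x) : EReal :=
  if ∃ v a, IsOverGerm x v ∧ IsLogDisc e v a ∧ a < 0 then ⊥
  else sInf {a : EReal | ∃ v r, IsOverGerm x v ∧ IsLogDisc e v r ∧ a = (r : EReal)}

/-! ### The residue field of a valuation -/

/-- the residue field of the valuation ring -/
abbrev Kp (v : DVal L) : Type := FractionRing (v.O ⧸ mvI v)

/-- the reduction -/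
noncomputable def red (v : DVal L) : v.O →+* Kp v :=
  (algebraMap (v.O ⧸ mvI v) (Kp v)).comp (Ideal.Quotient.mk (mvI v))

/-- `M` is a vector over the valuation ring with the reduction `u` -/
def Red (v : DVal L) {n : ℕ} (M : Fin n → L) (u : Fin n → Kp v) : Prop :=
  ∃ h : ∀ l, v.Reg (M l), ∀ l, red v ⟨M l, h l⟩ = u l

/-- The vector `u` over the residue field is the reduction of the vector of the normalised
logarithmic derivatives `s⁻¹ θ_l (h)` of a function `h` of order bigger than the one of `s`. -/
def Good {n : ℕ} (y : Fin n → L) (v : DVal L) (u : Fin n → Kp v) : Prop :=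
  ∃ (h s : L) (M : Fin n → L), s ≠ 0 ∧ (h = 0 ∨ v.ord s + 1 ≤ v.ord h) ∧
    (∀ D : Derivation ℂ L L, D h = s * ∑ l, M l * (D (y l) / y l)) ∧ Red v M u

end Pool.Agent.Helper43K9.LS
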