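import Pool.Agent.Helper43K9.LS.Defs

set_option autoImplicit false
set_option linter.unusedSectionVars false
set_option linter.unusedVariables false

namespace Pool.Agent.Helper43K9.LS

open Pool.Agent.H436R3.Fol Pool.Agent.H436R3.KT Pool.Agent.W497.Mld MvPolynomial
open Pool.Agent.TH165.ACC (pr ex Prim Cn Hs lead part pr_add pr_zero pr_neg pr_sub pr_smul
  pr_smul_right ex_add ex_inj mvI mem_mvI)
open Pool.Agent.Helper43K9.NH

variable {n d : ℕ} {L : Type} [Field L] [Algebra ℂ L]

/-- [DET] -/
theorem det_id (g : HypGerm d L) {k0 : Fin (d + 1)} (hk : aeval g.y (X k0 * pderiv k0 g.F) ≠ 0)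
    (M : Matrix (Fin (d + 1)) (Fin d) L) :
    ((Matrix.of fun (j : Fin d) (l : Fin (d + 1)) =>
        g.X.T.D (g.e.symm j) (g.y l) / g.y l) * M).det =
      (Matrix.of fun (l i : Fin (d + 1)) =>
        (Fin.cons (aeval g.y (X l * pderiv l g.F)) (M l) : Fin (d + 1) → L) i).det := by
  set Λ : Matrix (Fin d) (Fin (d + 1)) L := Matrix.of fun (j : Fin d) (l : Fin (d + 1)) =>
        g.X.T.D (g.e.symm j) (g.y l) / g.y l with hΛ
  set θ : Fin (d + 1) → L := fun l => aeval g.y (X l * pderiv l g.F) with hθ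
  set N : Matrix (Fin (d + 1)) (Fin (d + 1)) L := Matrix.of fun (l i : Fin (d + 1)) =>
        (Fin.cons (θ l) (M l) : Fin (d + 1) → L) i with hN
  let Λ' : Matrix (Fin (d + 1)) (Fin (d + 1)) L := Matrix.of fun (j l : Fin (d + 1)) =>
    (Fin.cons ((Pi.single k0 1 : Fin (d + 1) → L) l) (fun j => Λ j l) : Fin (d + 1) → L) j
  have hΛθ : ∀ j, ∑ l, Λ j l * θ l = 0 := by
    intro j
    have h1 := der_aeval g.yne (g.X.T.D (g.e.symm j)) g.F
    rw [(g.ker _).2 dvd_rfl, map_zero] at h1
    rw [h1]
    exact Finset.sum_congr rfl fun l _ => mul_comm _ _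
  -- the product
  have hprod : (Λ' * N).det = θ k0 * (Λ * M).det := by
    rw [Matrix.det_succ_column_zero, Fin.sum_univ_succ, Finset.sum_eq_zero, add_zero]
    · simp only [Fin.val_zero, pow_zero, one_mul]
      have h1 : (Λ' * N) 0 0 = θ k0 := by
        rw [Matrix.mul_apply, Finset.sum_eq_single k0]
        · simp [Λ', hN]
        · intro l _ hl
          simp [Λ', hl]
        · intro h; exact absurd (Finset.mem_univ _) h
      rw [h1]
      have h2 : (Λ' * N).submatrix (Fin.succAbove 0) Fin.succ = Λ * M := by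
        ext j i
        rw [Matrix.submatrix_apply, Matrix.mul_apply, Matrix.mul_apply]
        refine Finset.sum_congr rfl fun l _ => ?_
        simp [Λ', hN]
      rw [h2]
    · intro j _
      have h1 : (Λ' * N) j.succ 0 = 0 := by
        rw [Matrix.mul_apply, ← hΛθ j]
        refine Finset.sum_congr rfl fun l _ => ?_
        simp [Λ', hN]
      rw [h1, mul_zero, zero_mul]
  have hdet : Λ'.det = θ k0 := by
    rw [Matrix.det_succ_row_zero, Finset.sum_eq_single k0]
    · have h1 : Λ' 0 k0 = 1 := by simp [Λ']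
      have h2 : Λ'.submatrix Fin.succ k0.succAbove = Matrix.of fun (j i : Fin d) =>
          g.X.T.D (g.e.symm j) (g.y (k0.succAbove i)) / g.y (k0.succAbove i) := by
        ext j i
        simp [Λ', hΛ]
      rw [h1, h2, g.res k0, mul_one, ← mul_assoc, ← pow_add, ← two_mul, pow_mul]
      simp [hθ]
    · intro l _ hl
      have h1 : Λ' 0 l = 0 := by simp [Λ', hl]
      rw [h1, mul_zero, zero_mul]
    · intro h; exact absurd (Finset.mem_univ _) h
  rw [Matrix.det_mul, hdet] at hprod
  exact (mul_left_cancel₀ hk hprod).symm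

end Pool.Agent.Helper43K9.LS
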