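import Mathlib

/-!
# Linear algebra: bases which contain a given vector and many vectors of a given set
-/

set_option autoImplicit false

namespace Pool.Agent.Helper43K9.LS

open Submodule

variable {K : Type*} [Field K] {n : ℕ}

theorem exists_basis_finset {θ : Fin n → K} (hθ : θ ≠ 0) {B : Finset (Fin n → K)}
    (hB : LinearIndepOn K id (B : Set (Fin n → K))) {r : ℕ} (hr : r + 1 ≤ B.card) :
    ∃ b b1 : Finset (Fin n → K), b1 ⊆ b ∧ θ ∈ b1 ∧ r + 1 ≤ b1.card ∧ b.card = n ∧
      LinearIndepOn K id (b : Set (Fin n → K)) ∧ (∀ u ∈ b1, u = θ ∨ u ∈ B) ∧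
      ∀ u ∈ b, u ∈ b1 ∨ ∃ l, u = Pi.single l 1 := by
  classical
  obtain ⟨s1, h1, h2, h3, h4⟩ := exists_linearIndepOn_id_extension (K := K)
    (s := {θ}) (t := insert θ (B : Set (Fin n → K)))
    (LinearIndepOn.singleton (v := id) hθ) (by simp)
  have hf1 : s1.Finite := (B.finite_toSet.insert θ).subset h1
  obtain ⟨s2, k1, k2, k3, k4⟩ := exists_linearIndepOn_id_extension (K := K)
    (s := s1) (t := s1 ∪ Set.range fun l : Fin n => (Pi.single l 1 : Fin n → K)) h4
    Set.subset_union_left
  have hf2 : s2.Finite := (hf1.union (Set.finite_range _)).subset k1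
  refine ⟨hf2.toFinset, hf1.toFinset, ?_, ?_, ?_, ?_, ?_, ?_, ?_⟩
  · intro x hx
    rw [Set.Finite.mem_toFinset] at hx ⊢
    exact k2 hx
  · rw [Set.Finite.mem_toFinset]
    exact h2 (Set.mem_singleton θ)
  · have e1 : LinearIndepOn K id (hf1.toFinset : Set (Fin n → K)) := by
      rwa [Set.Finite.coe_toFinset]
    rw [← finrank_span_finset_eq_card e1]
    refine hr.trans ?_
    rw [← finrank_span_finset_eq_card hB]
    apply Submodule.finrank_mono
    rw [Submodule.span_le, Set.Finite.coe_toFinset]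
    exact (Set.subset_insert _ _).trans h3
  · have e1 : LinearIndepOn K id (hf2.toFinset : Set (Fin n → K)) := by
      rwa [Set.Finite.coe_toFinset]
    rw [← finrank_span_finset_eq_card e1, Set.Finite.coe_toFinset]
    have e2 : span K s2 = ⊤ := by
      rw [eq_top_iff, ← (Pi.basisFun K (Fin n)).span_eq, Submodule.span_le]
      rintro _ ⟨l, rfl⟩
      apply k3
      right
      exact ⟨l, by simp [Pi.basisFun_apply]⟩
    rw [e2, finrank_top, Module.finrank_fin_fun]
  · rwa [Set.Finite.coe_toFinset]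
  · intro u hu
    rw [Set.Finite.mem_toFinset] at hu
    rcases h1 hu with h | h
    · exact Or.inl h
    · exact Or.inr h
  · intro u hu
    rw [Set.Finite.mem_toFinset] at hu
    rcases k1 hu with h | ⟨l, rfl⟩
    · left
      rwa [Set.Finite.mem_toFinset]
    · exact Or.inr ⟨l, rfl⟩

/-- the same with indexed families -/
theorem exists_basis_fin {d : ℕ} {θ : Fin (d + 1) → K} (hθ : θ ≠ 0)
    {B : Finset (Fin (d + 1) → K)}
    (hB : LinearIndepOn K id (B : Set (Fin (d + 1) → K))) {r : ℕ} (hr : r + 1 ≤ B.card) :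
    ∃ (u : Fin d → Fin (d + 1) → K) (c : Fin d → ℕ),
      (Matrix.of fun l i : Fin (d + 1) => (Fin.cons (θ l) (fun i => u i l) : Fin (d + 1) → K) i).det
        ≠ 0 ∧ r ≤ ∑ i, c i ∧
      ∀ i, (u i ∈ B ∧ u i ≠ θ ∧ c i = 1) ∨ ((∃ l, u i = Pi.single l 1) ∧ c i = 0) := by
  classical
  obtain ⟨b, b1, h1, h2, h3, h4, h5, h6, h7⟩ := exists_basis_finset hθ hB hr
  have hcard : (b.erase θ).card = d := by
    rw [Finset.card_erase_of_mem (h1 h2), h4]
    rfl
  let σ : Fin d ≃ b.erase θ := (Finset.equivFinOfCardEq hcard).symm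
  let u : Fin d → Fin (d + 1) → K := fun i => (σ i : Fin (d + 1) → K)
  have hu : ∀ i, u i ∈ b ∧ u i ≠ θ := fun i => by
    have := (σ i).2
    rw [Finset.mem_erase] at this
    exact ⟨this.2, this.1⟩
  refine ⟨u, fun i => if u i ∈ b1 then 1 else 0, ?_, ?_, ?_⟩
  · let f : Fin (d + 1) → Fin (d + 1) → K := Fin.cons θ u
    have hf : ∀ i, f i ∈ b := by
      intro i
      refine Fin.cases ?_ (fun i => ?_) i
      · exact h1 h2
      · exact (hu i).1
    have hinj : Function.Injective f := by
      rw [Fin.cons_injective_iff]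
      refine ⟨?_, ?_⟩
      · rintro ⟨i, hi⟩
        exact (hu i).2 hi
      · intro i j hij
        exact σ.injective (Subtype.ext hij)
    have hind : LinearIndependent K f :=
      LinearIndependent.comp h5 (fun i => ⟨f i, hf i⟩)
        (fun i j hij => hinj (congrArg Subtype.val hij))
    have hunit : IsUnit (Matrix.of f) := by
      rw [← Matrix.linearIndependent_rows_iff_isUnit]
      exact hind
    have h8 : (Matrix.of f).det ≠ 0 := ((Matrix.isUnit_iff_isUnit_det _).1 hunit).ne_zero
    rw [← Matrix.det_transpose] at h8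
    convert h8 using 2
    ext l i
    refine Fin.cases ?_ (fun i => ?_) i
    · simp [f]
    · simp [f]
  · have h8 : (b1.erase θ).card ≤ ∑ i, if u i ∈ b1 then 1 else 0 := by
      rw [Finset.sum_boole, Nat.cast_id]
      have h9 : b1.erase θ ⊆ (Finset.univ.filter fun i => u i ∈ b1).image u := by
        intro x hx
        rw [Finset.mem_erase] at hx
        have hxb : x ∈ b.erase θ := Finset.mem_erase.2 ⟨hx.1, h1 hx.2⟩
        rw [Finset.mem_image]
        refine ⟨σ.symm ⟨x, hxb⟩, ?_, ?_⟩
        · rw [Finset.mem_filter]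
          refine ⟨Finset.mem_univ _, ?_⟩
          simp only [u, Equiv.apply_symm_apply]
          exact hx.2
        · simp only [u, Equiv.apply_symm_apply]
      exact (Finset.card_le_card h9).trans Finset.card_image_le
    rw [Finset.card_erase_of_mem h2] at h8
    exact le_trans (by omega) h8
  · intro i
    by_cases hi : u i ∈ b1
    · left
      refine ⟨(h6 _ hi).resolve_left (hu i).2, (hu i).2, if_pos hi⟩
    · right
      refine ⟨(h7 _ (hu i).1).resolve_left hi, if_neg hi⟩

end Pool.Agent.Helper43K9.LS
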