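import Pool.Agent.Helper43K9.LS.Defs
import Pool.Agent.Helper43K9.LS.Lin
import Pool.Agent.Helper43K9.LS.Det

set_option autoImplicit false
set_option linter.unusedSectionVars false
set_option linter.unusedVariables false

namespace Pool.Agent.Helper43K9.LS

open Pool.Agent.H436R3.Fol Pool.Agent.H436R3.KT Pool.Agent.W497.Mld MvPolynomial
open Pool.Agent.TH165.ACC (pr ex Prim Cn Hs lead part pr_add pr_zero pr_neg pr_sub pr_smul
  pr_smul_right ex_add ex_inj mvI mem_mvI ord_eq_zero_of_notMem)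
open Pool.Agent.Helper43K9.NH

variable {n d : ℕ} {L : Type} [Field L] [Algebra ℂ L]

theorem red_eq_zero {v : DVal L} {x : v.O} : red v x = 0 ↔ v.Pos (x : L) := by
  rw [red, RingHom.comp_apply, map_eq_zero_iff _ (IsFractionRing.injective _ _),
    Ideal.Quotient.eq_zero_iff_mem]
  exact mem_mvI

theorem red_of_one {v : DVal L} {x : L} (h : v.Reg x) (h1 : x = 1) : red v ⟨x, h⟩ = 1 := by
  subst h1
  exact map_one _

theorem red_of_zero {v : DVal L} {x : L} (h : v.Reg x) (h1 : x = 0) : red v ⟨x, h⟩ = 0 := by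
  subst h1
  exact map_zero _

/-- a matrix over the valuation ring whose reduction is invertible has a unit as determinant -/
theorem det_ord_zero {v : DVal L} {m : ℕ} (A : Matrix (Fin m) (Fin m) L)
    (Ab : Matrix (Fin m) (Fin m) (Kp v)) (h : ∀ i j, ∃ h : v.Reg (A i j), red v ⟨A i j, h⟩ = Ab i j)
    (h0 : Ab.det ≠ 0) : A.det ≠ 0 ∧ v.ord A.det = 0 := by
  choose hr hred using h
  let AO : Matrix (Fin m) (Fin m) v.O := Matrix.of fun i j => ⟨A i j, hr i j⟩
  have h1 : (red v) AO.det = Ab.det := by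
    rw [RingHom.map_det]
    congr 1
    ext i j
    exact hred i j
  have h2 : ((AO.det : v.O) : L) = A.det := by
    have := RingHom.map_det v.O.subtype AO
    change v.O.subtype AO.det = _
    rw [this]
    congr 1
  have h3 : AO.det ∉ mvI v := by
    intro h
    apply h0
    rw [← h1]
    exact red_eq_zero.2 h
  have h4 := ord_eq_zero_of_notMem h3
  rwa [h2] at h4

/-- the lower bound for the canonical order -/
theorem low_ind {g : HypGerm d L} {v : DVal L} {k0 : Fin (d + 1)}
    (hk : aeval g.y (X k0 * pderiv k0 g.F) ≠ 0)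
    (hk' : v.ord (aeval g.y (X k0 * pderiv k0 g.F)) = phi (expo g.F) (wt g.y v))
    {θ : Fin (d + 1) → Kp v}
    (hθ : Red v (fun l => aeval g.y (X l * pderiv l g.F) / aeval g.y (X k0 * pderiv k0 g.F)) θ)
    {B : Finset (Fin (d + 1) → Kp v)} (hB : ∀ u ∈ B, u = θ ∨ Good g.y v u)
    (hind : LinearIndepOn (Kp v) id (B : Set (Fin (d + 1) → Kp v))) {r : ℕ} (hr : r + 1 ≤ B.card)
    (A : Matrix (Fin g.X.d) (Fin g.X.d) L) (hA0 : A.det ≠ 0)
    (hA : ∀ i, Preserves v (∑ j, A i j • g.X.T.D j)) :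
    (r : ℤ) - 1 - phi (expo g.F) (wt g.y v) ≤ v.ord A.det := by
  classical
  set φ := phi (expo g.F) (wt g.y v) with hφ
  set τ : L := aeval g.y (X k0 * pderiv k0 g.F) with hτ
  have hθ0 : θ ≠ 0 := by
    intro h0
    obtain ⟨h1, h2⟩ := hθ
    have h3 := h2 k0
    rw [h0] at h3
    change _ = (0 : Kp v) at h3
    rw [red_eq_zero] at h3
    change v.Pos (τ / τ) at h3
    rw [div_self hk] at h3
    rcases h3 with h3 | h3
    · exact one_ne_zero h3
    · rw [v.ord_one] at h3
      exact lt_irrefl _ h3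
  obtain ⟨u, c, hdet, hc, hu⟩ := exists_basis_fin hθ0 hind hr
  -- the functions
  have hdata : ∀ i, ∃ (h s : L) (M : Fin (d + 1) → L), s ≠ 0 ∧
      (h = 0 ∨ v.ord s + (c i : ℤ) ≤ v.ord h) ∧
      (∀ D : Derivation ℂ L L, D h = s * ∑ l, M l * (D (g.y l) / g.y l)) ∧ Red v M (u i) := by
    intro i
    rcases hu i with ⟨h1, h2, h3⟩ | ⟨⟨l, hl⟩, h3⟩
    · obtain ⟨h, s, M, e1, e2, e3, e4⟩ := (hB _ h1).resolve_left h2
      refine ⟨h, s, M, e1, ?_, e3, e4⟩
      rw [h3]
      exact_mod_cast e2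
    · refine ⟨g.y l, g.y l, Pi.single l 1, g.yne l, Or.inr ?_, ?_, ?_⟩
      · rw [h3]; simp
      · intro D
        rw [Finset.sum_eq_single l]
        · rw [Pi.single_eq_same, one_mul, mul_div_cancel₀ _ (g.yne l)]
        · intro j _ hj
          rw [Pi.single_eq_of_ne hj, zero_mul]
        · intro h; exact absurd (Finset.mem_univ _) h
      · rw [hl]
        have hreg : ∀ j, v.Reg ((Pi.single l (1 : L) : Fin (d + 1) → L) j) := by
          intro j
          by_cases hj : j = l
          · subst hj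
            rw [Pi.single_eq_same]
            exact v.reg_one
          · rw [Pi.single_eq_of_ne hj]
            exact v.reg_zero
        refine ⟨hreg, fun j => ?_⟩
        by_cases hj : j = l
        · subst hj
          have e1 : (Pi.single j (1 : Kp v) : Fin (d + 1) → Kp v) j = 1 := by simp
          exact (red_of_one _ (Pi.single_eq_same _ _)).trans e1.symm
        · have e1 : (Pi.single l (1 : Kp v) : Fin (d + 1) → Kp v) j = 0 := by simp [hj]
          exact (red_of_zero _ (Pi.single_eq_of_ne hj _)).trans e1.symm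
  choose h s M hs hh hD hM using hdata
  let Mm : Matrix (Fin (d + 1)) (Fin d) L := Matrix.of fun l i => M i l
  let Λ : Matrix (Fin d) (Fin (d + 1)) L :=
    Matrix.of fun (j : Fin d) (l : Fin (d + 1)) => g.X.T.D (g.e.symm j) (g.y l) / g.y l
  -- the determinant
  obtain ⟨n1, n2⟩ := det_ord_zero (v := v)
    (Matrix.of fun (l i : Fin (d + 1)) =>
      (Fin.cons (aeval g.y (X l * pderiv l g.F) / τ) (Mm l) : Fin (d + 1) → L) i)
    (Matrix.of fun l i : Fin (d + 1) =>
      (Fin.cons (θ l) (fun i => u i l) : Fin (d + 1) → Kp v) i) (by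
      intro l i
      refine Fin.cases ?_ (fun i => ?_) i
      · obtain ⟨h1, h2⟩ := hθ
        exact ⟨h1 l, h2 l⟩
      · obtain ⟨h1, h2⟩ := hM i
        exact ⟨h1 l, h2 l⟩) hdet
  have hcol : (Matrix.of fun (l i : Fin (d + 1)) =>
        (Fin.cons (aeval g.y (X l * pderiv l g.F)) (Mm l) : Fin (d + 1) → L) i).det =
      τ * (Matrix.of fun (l i : Fin (d + 1)) =>
        (Fin.cons (aeval g.y (X l * pderiv l g.F) / τ) (Mm l) : Fin (d + 1) → L) i).det := by
    have h1 := Matrix.det_mul_row (Fin.cons τ (fun _ => 1) : Fin (d + 1) → L)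
      (Matrix.of fun (l i : Fin (d + 1)) =>
        (Fin.cons (aeval g.y (X l * pderiv l g.F) / τ) (Mm l) : Fin (d + 1) → L) i)
    rw [Fin.prod_univ_succ] at h1
    simp only [Fin.cons_zero, Fin.cons_succ, Finset.prod_const_one, mul_one] at h1
    rw [← h1]
    congr 1
    ext l i
    refine Fin.cases ?_ (fun i => ?_) i
    · simp only [Matrix.of_apply, Fin.cons_zero]
      rw [mul_div_cancel₀ _ hk]
    · simp only [Matrix.of_apply, Fin.cons_succ, one_mul]
  have hid : (Λ * Mm).det = _ := det_id g hk Mm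
  rw [hcol] at hid
  have hΛ0 : (Λ * Mm).det ≠ 0 := by
    rw [hid]
    exact mul_ne_zero hk n1
  have hΛo : v.ord (Λ * Mm).det = φ := by
    rw [hid, v.map_mul _ _ hk n1, n2, hk', add_zero]
  -- the Jacobian matrix
  have hJ : (Matrix.of fun (j i : Fin g.X.d) => g.X.T.D j (h (g.e i))).det =
      (∏ i, s i) * (Λ * Mm).det := by
    rw [← Matrix.det_mul_row, ← Matrix.det_submatrix_equiv_self g.e]
    congr 1
    ext j i
    simp only [Matrix.of_apply, Matrix.submatrix_apply, Matrix.mul_apply]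
    rw [hD]
    congr 1
    refine Finset.sum_congr rfl fun l _ => ?_
    simp only [Λ, Mm, Matrix.of_apply, Equiv.symm_apply_apply]
    ring
  have hp : (∏ i, s i) ≠ 0 := Finset.prod_ne_zero_iff.2 fun i _ => hs i
  have hJ0 : (Matrix.of fun (j i : Fin g.X.d) => g.X.T.D j (h (g.e i))).det ≠ 0 := by
    rw [hJ]
    exact mul_ne_zero hp hΛ0
  have hne : ∀ i, h i ≠ 0 := by
    intro i h0
    apply hJ0
    refine Matrix.det_eq_zero_of_column_eq_zero (g.e.symm i) fun j => ?_
    simp only [Matrix.of_apply, Equiv.apply_symm_apply]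
    rw [h0, map_zero]
  have h1 := gji v g.X.T.D A hA0 hA (fun i => h (g.e i)) (fun i => hne _) hJ0
  rw [hJ, v.map_mul _ _ hp hΛ0, hΛo, v.ord_prod _ _ fun i _ => hs i,
    g.e.sum_comp fun i => v.ord (h i)] at h1
  have h2 : ∑ i, (v.ord (s i) + (c i : ℤ)) ≤ ∑ i, v.ord (h i) :=
    Finset.sum_le_sum fun i _ => (hh i).resolve_left (hne i)
  rw [Finset.sum_add_distrib] at h2
  have h3 : (r : ℤ) ≤ ∑ i, (c i : ℤ) := by exact_mod_cast hc
  linarith

end Pool.Agent.Helper43K9.LS
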