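import Pool.Agent.Helper43K9.LS.Core

set_option autoImplicit false
set_option linter.unusedSectionVars false
set_option linter.unusedVariables false

namespace Pool.Agent.Helper43K9.LS

open Pool.Agent.H436R3.Fol Pool.Agent.H436R3.KT Pool.Agent.W497.Mld MvPolynomial
open Pool.Agent.TH165.ACC (pr Cn)
open Pool.Agent.Helper43K9.NH

variable {d : ℕ} {L : Type} [Field L] [Algebra ℂ L]

theorem semi {g : HypGerm d L} (hk : KltType g) {b : Bd g} {B : EffDiv g.X} {e : LocEq B g.P}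
    (hr : IsRestrAt b e) {x : Pt g.X} {e' : LocEq B x} (hr' : IsRestrAt b e')
    (hx : ∀ v, IsOverGerm x v → ∀ c, IsCanOrd g.X.T v c →
      ∃ w', Inn g.E w' ∧ aa b.ψ (expo g.F) w' ≤ 1 + (c : ℝ) + dot b.ψ (wt g.y v)) :
    mld e ≤ mld e' := by
  by_cases hneg : ∃ v a, IsOverGerm g.P v ∧ IsLogDisc e v a ∧ a < 0
  · rw [mld, if_pos hneg]
    exact bot_le
  have hI : mld e = sInf {a : EReal | ∃ v r, IsOverGerm g.P v ∧ IsLogDisc e v r ∧
    a = (r : EReal)} := by rw [mld, if_neg hneg]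
  push Not at hneg
  have h0 : 0 ≤ mld e := by
    rw [hI]
    apply le_sInf
    rintro _ ⟨v, r, hv, hlr, rfl⟩
    exact_mod_cast hneg v r hv hlr
  have key : ∀ v, IsOverGerm x v → ∀ a, IsLogDisc e' v a → mld e ≤ (a : EReal) := by
    rintro v hv a ⟨c, hc, rfl⟩
    obtain ⟨w', hw', hle⟩ := hx v hv c hc
    rw [hr' v]
    by_contra hlt
    push Not at hlt
    obtain ⟨q, hq1, hq2⟩ := EReal.lt_iff_exists_real_btwn.1 hlt
    have h1 : max q 0 ≤ aa b.ψ (expo g.F) w' := by
      refine hmin hk b hr (le_max_right _ _) (fun v' hv' a' ha' => max_le ?_ (hneg v' a' hv' ha'))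
        w' hw'
      have h2 : mld e ≤ (a' : EReal) := by
        rw [hI]
        exact sInf_le ⟨v', a', hv', ha', rfl⟩
      exact_mod_cast (hq2.trans_le h2).le
    have h2 := (le_max_left q 0).trans h1
    have h3 : 1 + (c : ℝ) - -dot b.ψ (wt g.y v) < q := by exact_mod_cast hq1
    linarith
  by_cases hneg' : ∃ v a, IsOverGerm x v ∧ IsLogDisc e' v a ∧ a < 0
  · obtain ⟨v, a, hv, ha, hlt⟩ := hneg'
    have h1 := h0.trans (key v hv a ha)
    have h2 : (0 : ℝ) ≤ a := by exact_mod_cast h1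
    exact absurd hlt (not_lt.2 h2)
  · have hI' : mld e' = sInf {a : EReal | ∃ v r, IsOverGerm x v ∧ IsLogDisc e' v r ∧
      a = (r : EReal)} := by rw [mld, if_neg hneg']
    rw [hI']
    apply le_sInf
    rintro _ ⟨v, r, hv, hlr, rfl⟩
    exact key v hv r hlr

end Pool.Agent.Helper43K9.LS
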